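import Mathlib

/-!
# Movable graphs and expander sequences: definitions
-/

set_option autoImplicit false

namespace Q140.Mov

/-- A realisation in the plane `ℂ = ℝ²` of the graph `G` with edge lengths `l`. -/
def IsRealisation {V : Type} (G : SimpleGraph V) (l : Sym2 V → ℝ) (ρ : V → ℂ) : Prop :=
  ∀ u v, G.Adj u v → ‖ρ u - ρ v‖ = l s(u, v)

/-- Two maps to the plane are equivalent if they differ by a direct Euclidean isometry
`z ↦ a z + b`, `|a| = 1`. -/
def congruence (V : Type) : Setoid (V → ℂ) where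
  r ρ₁ ρ₂ := ∃ a b : ℂ, ‖a‖ = 1 ∧ ∀ v, ρ₁ v = a * ρ₂ v + b
  iseqv :=
    { refl := fun ρ => ⟨1, 0, by simp, fun v => by simp⟩
      symm := by
        rintro ρ₁ ρ₂ ⟨a, b, ha, h⟩
        have ha0 : a ≠ 0 := by
          rintro rfl
          simp at ha
        refine ⟨a⁻¹, -(a⁻¹ * b), by simp [ha], fun v => ?_⟩
        rw [h]
        field_simp
        ring
      trans := by
        rintro ρ₁ ρ₂ ρ₃ ⟨a, b, ha, h⟩ ⟨c, d, hc, h'⟩
        refine ⟨a * c, a * d + b, by simp [ha, hc], fun v => ?_⟩
        rw [h, h']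
        ring }

/-- `G` is movable: for some positive edge lengths there are infinitely many classes of injective
realisations up to direct isometries. -/
def Movable {V : Type} (G : SimpleGraph V) : Prop :=
  ∃ l : Sym2 V → ℝ, (∀ e ∈ G.edgeSet, 0 < l e) ∧
    (Quotient.mk (congruence V) '' {ρ | IsRealisation G l ρ ∧ Function.Injective ρ}).Infinite

/-- The edges with exactly one endpoint in `S`. -/
def edgeBoundary {V : Type} (G : SimpleGraph V) (S : Set V) : Set (Sym2 V) :=
  {e | e ∈ G.edgeSet ∧ ∃ u ∈ S, ∃ v ∉ S, e = s(u, v)}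

/-- A constant degree `d` expander sequence: finite connected `d`-regular graphs `Γ n` whose orders
tend to infinity and for which `|∂S| ≥ ε |S|` for some `ε > 0`, all `n` and all nonempty `S` with
at most half of the vertices of `Γ n`. -/
structure IsExpanderSequence (d : ℕ) {V : ℕ → Type} (Γ : ∀ n, SimpleGraph (V n)) : Prop where
  finite : ∀ n, Finite (V n)
  connected : ∀ n, (Γ n).Connected
  regular : ∀ n, ∀ v, ((Γ n).neighborSet v).ncard = d
  card : Filter.Tendsto (fun n => Nat.card (V n)) Filter.atTop Filter.atTop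
  expansion : ∃ ε : ℝ, 0 < ε ∧ ∀ n, ∀ S : Set (V n), S.Nonempty → 2 * S.ncard ≤ Nat.card (V n) →
    ε * S.ncard ≤ (edgeBoundary (Γ n) S).ncard

end Q140.Mov
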