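import Pool.Agent.Q140.Mov.Graph

/-!
# The graphs on the Margulis permutations form an expander sequence of non-movable graphs
-/

set_option autoImplicit false

open Finset
open Pool.Agent.H521R3.BI

namespace Q140.Mov

/-- the vertices -/
abbrev VV (m : ℕ) : Type := (ZMod m × ZMod m) × Code

lemma expansion_fin (m : ℕ) [NeZero m] (S : Finset (VV m)) (h : 2 * S.card ≤ 16 * m ^ 2) :
    (S.card : ℝ) ≤ 204816 * ((bd (sg m) S).card : ℝ) := by
  have h1 : (16 : ℝ) * (full S).card ≤ S.card := by exact_mod_cast full_le S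
  have h2 : (2 : ℝ) * S.card ≤ 16 * (m : ℝ) ^ 2 := by exact_mod_cast h
  have h3 := sg_expand m (full S)
  have h4 : ∑ k, (((full S).filter (fun v => sg m k v ∉ full S)).card : ℝ) ≤
      8 * (bd (sg m) S).card := by
    calc ∑ k, (((full S).filter (fun v => sg m k v ∉ full S)).card : ℝ)
        ≤ ∑ k : Fin 4, 2 * ((bd (sg m) S).card : ℝ) := by
          refine sum_le_sum fun k _ => ?_
          exact_mod_cast card_cross_le (sg m) S k
      _ = 8 * (bd (sg m) S).card := by
          rw [sum_const, card_univ, Fintype.card_fin]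
          simp only [nsmul_eq_mul]
          push_cast
          ring
  have h5 : (S.card : ℝ) ≤ 16 * ((full S).card + (part S).card) := by exact_mod_cast card_le S
  have h6 : ((part S).card : ℝ) ≤ (bd (sg m) S).card := by exact_mod_cast card_part_le (sg m) S
  have hm : (0 : ℝ) < (m : ℝ) ^ 2 := by
    have : (0 : ℝ) < m := by exact_mod_cast Nat.pos_of_ne_zero (NeZero.ne m)
    positivity
  have h7 : (full S).card * ((m : ℝ) ^ 2 / 2) ≤ (full S).card * ((m : ℝ) ^ 2 - (full S).card) := by
    apply mul_le_mul_of_nonneg_left _ (Nat.cast_nonneg _)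
    linarith
  have h8 : 800 * (m : ℝ) ^ 2 * ∑ k, (((full S).filter (fun v => sg m k v ∉ full S)).card : ℝ) ≤
      800 * (m : ℝ) ^ 2 * (8 * (bd (sg m) S).card) := by
    apply mul_le_mul_of_nonneg_left h4
    positivity
  have h9 : (m : ℝ) ^ 2 * ((full S).card : ℝ) ≤ (m : ℝ) ^ 2 * (12800 * (bd (sg m) S).card) := by
    linarith
  have h10 := le_of_mul_le_mul_left h9 hm
  linarith

/-! ### every vertex is reached -/

section Reach

variable (m : ℕ) [NeZero m]

/-- the starting vertices -/
abbrev x0 : VV m := ((0, 0), 0, false, false)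
/-- the starting vertices -/
abbrev x1 : VV m := ((0, 0), 0, false, true)

lemma perc_fibre (v : ZMod m × ZMod m) (k : Fin 4) (s : Bool)
    (h1 : Perc (graph (sg m)) (x0 m) (x1 m) (v, k, s, false))
    (h2 : Perc (graph (sg m)) (x0 m) (x1 m) (v, k, s, true)) (c : Code) :
    Perc (graph (sg m)) (x0 m) (x1 m) (v, c) := by
  -- fibres of other colours first
  have h3 : ∀ l : Fin 4, l ≠ k → ∀ t e : Bool,
      Perc (graph (sg m)) (x0 m) (x1 m) (v, l, t, e) := by
    intro l hl t e
    refine Perc.step _ _ _ h1 h2 (by simp) (adj_fibre _ _ _ _ ?_ ?_) (adj_fibre _ _ _ _ ?_ ?_)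
    · intro h
      exact hl (congrArg Prod.fst h)
    · rintro ⟨h, -⟩
      exact hl h
    · intro h
      exact hl (congrArg Prod.fst h)
    · rintro ⟨h, -⟩
      exact hl h
  obtain ⟨l, t, e⟩ := c
  by_cases hl : l = k
  · obtain ⟨l', hl'⟩ : ∃ l' : Fin 4, l' ≠ k := by
      have : ∀ k : Fin 4, ∃ l : Fin 4, l ≠ k := by decide
      exact this _
    refine Perc.step _ _ _ (h3 l' hl' false false) (h3 l' hl' false true) (by simp)
      (adj_fibre _ _ _ _ ?_ ?_) (adj_fibre _ _ _ _ ?_ ?_)
    · intro h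
      exact hl' ((congrArg Prod.fst h).symm.trans hl)
    · rintro ⟨h, -⟩
      exact hl' (h.symm.trans hl)
    · intro h
      exact hl' ((congrArg Prod.fst h).symm.trans hl)
    · rintro ⟨h, -⟩
      exact hl' (h.symm.trans hl)
  · exact h3 l hl t e

lemma perc_all (x : VV m) : Perc (graph (sg m)) (x0 m) (x1 m) x := by
  classical
  set T : Finset (ZMod m × ZMod m) :=
    univ.filter fun v => ∀ c : Code, Perc (graph (sg m)) (x0 m) (x1 m) (v, c) with hT
  have h0 : ((0, 0) : ZMod m × ZMod m) ∈ T := by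
    rw [hT, mem_filter]
    exact ⟨mem_univ _, perc_fibre m _ 0 false Perc.zero Perc.one⟩
  have hcl : ∀ k, ∀ v ∈ T, sg m k v ∈ T := by
    intro k v hv
    rw [hT, mem_filter] at hv ⊢
    refine ⟨mem_univ _, perc_fibre m _ k true ?_ ?_⟩
    · exact Perc.step _ _ _ (hv.2 (k, false, false)) (hv.2 (k, false, true)) (by simp)
        (adj_cross _ _ _ _ _).symm (adj_cross _ _ _ _ _).symm
    · exact Perc.step _ _ _ (hv.2 (k, false, false)) (hv.2 (k, false, true)) (by simp)
        (adj_cross _ _ _ _ _).symm (adj_cross _ _ _ _ _).symm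
  have h1 := sg_expand m T
  have h2 : ∀ k, T.filter (fun v => sg m k v ∉ T) = ∅ := by
    intro k
    rw [filter_eq_empty_iff]
    intro v hv h
    exact h (hcl k v hv)
  simp only [h2, card_empty, Nat.cast_zero, sum_const_zero, mul_zero] at h1
  have hc : (0 : ℝ) < T.card := by exact_mod_cast card_pos.2 ⟨_, h0⟩
  have h3 : (m : ℝ) ^ 2 ≤ T.card := by
    by_contra h4
    push Not at h4
    have := mul_pos hc (sub_pos.2 h4)
    linarith
  have h4 : T = univ := by
    apply eq_univ_of_card
    apply le_antisymm (card_le_univ _)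
    have h5 : m ^ 2 ≤ T.card := by exact_mod_cast h3
    rw [Fintype.card_prod, ZMod.card]
    calc m * m = m ^ 2 := (sq m).symm
      _ ≤ _ := h5
  have h5 : x.1 ∈ T := by rw [h4]; exact mem_univ _
  rw [hT, mem_filter] at h5
  exact h5.2 x.2

lemma x0_adj_x1 : (graph (sg m)).Adj (x0 m) (x1 m) := by
  refine adj_fibre _ _ _ _ (by decide) (by decide)

lemma connected : (graph (sg m)).Connected :=
  connected_of_perc _ (x0 m) (x1 m) (x0_adj_x1 m) (perc_all m)

lemma notMovable : ¬ Movable (graph (sg m)) :=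
  not_movable _ (x0 m) (x1 m) (x0_adj_x1 m) (perc_all m)

lemma card_VV : Nat.card (VV m) = 16 * m ^ 2 := by
  rw [Nat.card_eq_fintype_card, Fintype.card_prod, Fintype.card_prod, ZMod.card]
  have : Fintype.card Code = 16 := rfl
  rw [this]
  ring

lemma expansion_set (S : Set (VV m)) (h : 2 * S.ncard ≤ Nat.card (VV m)) :
    (1 / 204816 : ℝ) * S.ncard ≤ (edgeBoundary (graph (sg m)) S).ncard := by
  classical
  rw [card_VV] at h
  have h1 : S.ncard = S.toFinset.card := Set.ncard_eq_toFinset_card' S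
  rw [h1] at h ⊢
  have h2 := expansion_fin m S.toFinset h
  have h3 := card_bd_le (sg m) S.toFinset
  rw [Set.coe_toFinset] at h3
  have h4 : ((bd (sg m) S.toFinset).card : ℝ) ≤ (edgeBoundary (graph (sg m)) S).ncard := by
    exact_mod_cast h3
  linarith

end Reach

theorem main : IsExpanderSequence 15 (fun n : ℕ => graph (sg (n + 1))) ∧
    ∀ n : ℕ, ¬ Movable (graph (sg (n + 1))) := by
  refine ⟨⟨fun n => inferInstance, fun n => connected (n + 1), fun n v => ncard_neighborSet _ v,
    ?_, 1 / 204816, by norm_num, fun n S _ h => expansion_set (n + 1) S h⟩,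
    fun n => notMovable (n + 1)⟩
  have h1 : ∀ n : ℕ, n ≤ Nat.card (VV (n + 1)) := by
    intro n
    rw [card_VV]
    nlinarith
  exact Filter.tendsto_atTop_mono h1 Filter.tendsto_id

end Q140.Mov
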