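import Pool.Agent.Q140.Mov.Rigid
import Pool.Agent.H521R3.BI.Marg

/-!
# The graph: Margulis permutations, every vertex replaced by 16 vertices
-/

set_option autoImplicit false

open Finset

namespace Q140.Mov

/-- codes of the vertices of one fibre -/
abbrev Code : Type := Fin 4 × Bool × Bool

variable {X : Type} (σ : Fin 4 → Equiv.Perm X)

/-- adjacency -/
def adj (x y : X × Code) : Prop :=
  (x.1 = y.1 ∧ x.2 ≠ y.2 ∧ ¬ (x.2.1 = y.2.1 ∧ x.2.2.1 ≠ y.2.2.1)) ∨
    (x.2.1 = y.2.1 ∧ x.2.2.1 = false ∧ y.2.2.1 = true ∧ y.1 = σ x.2.1 x.1) ∨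
    (x.2.1 = y.2.1 ∧ x.2.2.1 = true ∧ y.2.2.1 = false ∧ x.1 = σ x.2.1 y.1)

/-- the graph -/
def graph : SimpleGraph (X × Code) where
  Adj := adj σ
  symm := ⟨by
    rintro x y (⟨h1, h2, h3⟩ | ⟨h1, h2, h3, h4⟩ | ⟨h1, h2, h3, h4⟩)
    · exact Or.inl ⟨h1.symm, h2.symm, fun h => h3 ⟨h.1.symm, h.2.symm⟩⟩
    · exact Or.inr (Or.inr ⟨h1.symm, h3, h2, by rw [← h1]; exact h4⟩)
    · exact Or.inr (Or.inl ⟨h1.symm, h3, h2, by rw [← h1]; exact h4⟩)⟩
  loopless := ⟨by
    rintro x (⟨h1, h2, h3⟩ | ⟨h1, h2, h3, h4⟩ | ⟨h1, h2, h3, h4⟩)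
    · exact h2 rfl
    · rw [h2] at h3; exact Bool.noConfusion h3
    · rw [h2] at h3; exact Bool.noConfusion h3⟩

lemma adj_fibre (v : X) (c c' : Code) (h : c ≠ c') (h' : ¬ (c.1 = c'.1 ∧ c.2.1 ≠ c'.2.1)) :
    (graph σ).Adj (v, c) (v, c') := Or.inl ⟨rfl, h, h'⟩

lemma adj_cross (v : X) (k : Fin 4) (e f : Bool) :
    (graph σ).Adj (v, k, false, e) (σ k v, k, true, f) := Or.inr (Or.inl ⟨rfl, rfl, rfl, rfl⟩)

/-- the other end of the cross edges -/
def partner (x : X × Code) : X := if x.2.2.1 = false then σ x.2.1 x.1 else (σ x.2.1).symm x.1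

/-- the codes of the fibre neighbours -/
def nbc (c : Code) : Finset Code :=
  univ.filter fun c' => c ≠ c' ∧ ¬ (c.1 = c'.1 ∧ c.2.1 ≠ c'.2.1)

lemma card_nbc (c : Code) : (nbc c).card = 13 := by
  revert c
  decide

lemma neighborSet_eq [DecidableEq X] (x : X × Code) : (graph σ).neighborSet x =
    ((nbc x.2).image (fun c => (x.1, c)) ∪
      (univ : Finset Bool).image (fun e => (partner σ x, x.2.1, !x.2.2.1, e)) : Finset _) := by
  ext y
  rw [SimpleGraph.mem_neighborSet, mem_coe, mem_union, mem_image, mem_image]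
  constructor
  · rintro (⟨h1, h2, h3⟩ | ⟨h1, h2, h3, h4⟩ | ⟨h1, h2, h3, h4⟩)
    · exact Or.inl ⟨y.2, mem_filter.2 ⟨mem_univ _, h2, h3⟩, by rw [h1]⟩
    · refine Or.inr ⟨y.2.2.2, mem_univ _, ?_⟩
      obtain ⟨y1, y2, y3, y4⟩ := y
      simp only at h1 h2 h3 h4 ⊢
      rw [partner, if_pos h2, h4, h1, h2, h3]
      rfl
    · refine Or.inr ⟨y.2.2.2, mem_univ _, ?_⟩
      obtain ⟨y1, y2, y3, y4⟩ := y
      simp only at h1 h2 h3 h4 ⊢
      rw [partner, if_neg (by rw [h2]; decide), h4, h1, h2, h3]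
      simp
  · rintro (⟨c, hc, rfl⟩ | ⟨e, -, rfl⟩)
    · obtain ⟨-, h2, h3⟩ := mem_filter.1 hc
      exact Or.inl ⟨rfl, h2, h3⟩
    · cases hs : x.2.2.1
      · refine Or.inr (Or.inl ⟨rfl, hs, by simp [hs], ?_⟩)
        simp [partner, hs]
      · refine Or.inr (Or.inr ⟨rfl, hs, by simp [hs], ?_⟩)
        simp [partner, hs]

lemma ncard_neighborSet (x : X × Code) : ((graph σ).neighborSet x).ncard = 15 := by
  classical
  rw [neighborSet_eq, Set.ncard_coe_finset, card_union_of_disjoint, card_image_of_injective,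
    card_image_of_injective, card_nbc]
  · rfl
  · intro e f h
    simpa using h
  · intro c c' h
    simpa using h
  · rw [disjoint_left]
    rintro y hy hy'
    obtain ⟨c, hc, rfl⟩ := mem_image.1 hy
    obtain ⟨e, -, he⟩ := mem_image.1 hy'
    obtain ⟨-, h2, h3⟩ := mem_filter.1 hc
    have h4 := congrArg Prod.snd he
    simp only at h4
    apply h3
    rw [← h4]
    refine ⟨rfl, ?_⟩
    simp

/-- pairs of codes in one fibre -/
lemma exists_fibre_pair (p : Code → Prop) (h1 : ∃ c, p c) (h2 : ∃ c, ¬ p c) :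
    ∃ c c', p c ∧ ¬ p c' ∧ c ≠ c' ∧ ¬ (c.1 = c'.1 ∧ c.2.1 ≠ c'.2.1) := by
  obtain ⟨c, hc⟩ := h1
  obtain ⟨c', hc'⟩ := h2
  have hne : c ≠ c' := by rintro rfl; exact hc' hc
  by_cases h : c.1 = c'.1 ∧ c.2.1 ≠ c'.2.1
  · obtain ⟨l, hl⟩ : ∃ l : Fin 4, l ≠ c.1 := by
      have : ∀ k : Fin 4, ∃ l : Fin 4, l ≠ k := by decide
      exact this _
    by_cases hd : p (l, true, true)
    · refine ⟨(l, true, true), c', hd, hc', ?_, ?_⟩
      · rintro rfl; exact hc' hd
      · rintro ⟨h3, -⟩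
        exact hl (h3.trans h.1.symm)
    · refine ⟨c, (l, true, true), hc, hd, ?_, ?_⟩
      · rintro rfl; exact hd hc
      · rintro ⟨h3, -⟩
        exact hl h3.symm
  · exact ⟨c, c', hc, hc', hne, h⟩

section Expansion

variable [Fintype X] [DecidableEq X]

open Classical in
/-- the boundary pairs -/
noncomputable def bd (S : Finset (X × Code)) : Finset ((X × Code) × (X × Code)) :=
  univ.filter fun e => (graph σ).Adj e.1 e.2 ∧ e.1 ∈ S ∧ e.2 ∉ S

lemma card_bd_le (S : Finset (X × Code)) :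
    (bd σ S).card ≤ (edgeBoundary (graph σ) (S : Set (X × Code))).ncard := by
  classical
  rw [← Set.ncard_coe_finset]
  refine Set.ncard_le_ncard_of_injOn (fun e => s(e.1, e.2)) ?_ ?_ (Set.toFinite _)
  · rintro ⟨u, v⟩ he
    obtain ⟨-, h1, h2, h3⟩ := mem_filter.1 (mem_coe.1 he)
    exact ⟨(SimpleGraph.mem_edgeSet _).2 h1, u, mem_coe.2 h2, v, fun h => h3 (mem_coe.1 h), rfl⟩
  · rintro ⟨u, v⟩ he ⟨u', v'⟩ he' h
    obtain ⟨-, -, h2, h3⟩ := mem_filter.1 (mem_coe.1 he)
    obtain ⟨-, -, h2', h3'⟩ := mem_filter.1 (mem_coe.1 he')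
    simp only at h h2 h3 h2' h3'
    rw [Sym2.eq_iff] at h
    rcases h with ⟨rfl, rfl⟩ | ⟨rfl, rfl⟩
    · rfl
    · exact absurd h2 h3'

open Classical in
/-- the full fibres -/
noncomputable def full (S : Finset (X × Code)) : Finset X := univ.filter fun v => ∀ c, (v, c) ∈ S

open Classical in
/-- the fibres that are met but not full -/
noncomputable def part (S : Finset (X × Code)) : Finset X :=
  univ.filter fun v => (∃ c, (v, c) ∈ S) ∧ ∃ c, (v, c) ∉ S

lemma card_part_le (S : Finset (X × Code)) : (part S).card ≤ (bd σ S).card := by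
  classical
  have h1 : ∀ v ∈ part S, ∃ e ∈ bd σ S, e.1.1 = v := by
    intro v hv
    obtain ⟨-, h1, h2⟩ := mem_filter.1 hv
    obtain ⟨c, c', h3, h4, h5, h6⟩ := exists_fibre_pair (fun c => (v, c) ∈ S) h1 h2
    exact ⟨((v, c), (v, c')), mem_filter.2 ⟨mem_univ _, adj_fibre σ v c c' h5 h6, h3, h4⟩, rfl⟩
  have h2 : part S ⊆ (bd σ S).image fun e => e.1.1 := by
    intro v hv
    obtain ⟨e, he, hev⟩ := h1 v hv
    exact mem_image.2 ⟨e, he, hev⟩
  exact (card_le_card h2).trans card_image_le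

lemma card_cross_le (S : Finset (X × Code)) (k : Fin 4) :
    ((full S).filter fun v => σ k v ∉ full S).card ≤ 2 * (bd σ S).card := by
  classical
  have h1 : ((full S).filter fun v => σ k v ∉ full S) ⊆
      ((full S).filter fun v => σ k v ∈ part S) ∪
        ((full S).filter fun v => ∀ c, (σ k v, c) ∉ S) := by
    intro v hv
    obtain ⟨h2, h3⟩ := mem_filter.1 hv
    rw [mem_union, mem_filter, mem_filter]
    by_cases h4 : ∃ c, (σ k v, c) ∈ S
    · left
      refine ⟨h2, mem_filter.2 ⟨mem_univ _, h4, ?_⟩⟩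
      by_contra h5
      push Not at h5
      exact h3 (mem_filter.2 ⟨mem_univ _, h5⟩)
    · right
      push Not at h4
      exact ⟨h2, h4⟩
  have h2 : ((full S).filter fun v => σ k v ∈ part S).card ≤ (part S).card :=
    card_le_card_of_injOn (σ k) (fun v hv => (mem_filter.1 hv).2) (σ k).injective.injOn
  have h3 : ((full S).filter fun v => ∀ c, (σ k v, c) ∉ S).card ≤ (bd σ S).card := by
    refine card_le_card_of_injOn (fun v => ((v, k, false, false), (σ k v, k, true, false))) ?_ ?_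
    · intro v hv
      obtain ⟨h4, h5⟩ := mem_filter.1 (mem_coe.1 hv)
      exact mem_coe.2 (mem_filter.2 ⟨mem_univ _, adj_cross σ v k false false,
        (mem_filter.1 h4).2 _, h5 _⟩)
    · intro v _ w _ h
      have := congrArg (fun e : (X × Code) × (X × Code) => e.1.1) h
      exact this
  have h4 := card_part_le σ S
  have h5 := (card_le_card h1).trans (card_union_le _ _)
  omega

lemma card_le (S : Finset (X × Code)) : S.card ≤ 16 * ((full S).card + (part S).card) := by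
  classical
  have h1 : S.card ≤ 16 * (S.image Prod.fst).card := by
    refine card_le_mul_card_image S 16 fun v _ => ?_
    have : (S.filter fun x => x.1 = v).card ≤ (univ : Finset Code).card :=
      card_le_card_of_injOn Prod.snd (fun x _ => mem_univ _) (by
        intro x hx y hy h
        have hx' := (mem_filter.1 (mem_coe.1 hx)).2
        have hy' := (mem_filter.1 (mem_coe.1 hy)).2
        exact Prod.ext (hx'.trans hy'.symm) h)
    exact this
  have h2 : S.image Prod.fst ⊆ full S ∪ part S := by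
    intro v hv
    obtain ⟨x, hx, rfl⟩ := mem_image.1 hv
    rw [mem_union]
    by_cases h : ∀ c, (x.1, c) ∈ S
    · exact Or.inl (mem_filter.2 ⟨mem_univ _, h⟩)
    · push Not at h
      exact Or.inr (mem_filter.2 ⟨mem_univ _, ⟨x.2, hx⟩, h⟩)
  have h3 := (card_le_card h2).trans (card_union_le _ _)
  omega

lemma full_le (S : Finset (X × Code)) : 16 * (full S).card ≤ S.card := by
  classical
  have h1 : (full S) ×ˢ (univ : Finset Code) ⊆ S := by
    intro x hx
    exact (mem_filter.1 (mem_product.1 hx).1).2 x.2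
  have h2 := card_le_card h1
  rw [card_product] at h2
  have h3 : (univ : Finset Code).card = 16 := rfl
  rw [h3] at h2
  omega

end Expansion

end Q140.Mov
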