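import Pool.Agent.Q140.Mov.Defs

/-!
# A graph in which every vertex is reached by attaching vertices to two earlier ones is not movable
-/

set_option autoImplicit false

namespace Q140.Mov

variable {V : Type}

/-- the vertices that are obtained from `x₀, x₁` by adding vertices with two earlier neighbours -/
inductive Perc (G : SimpleGraph V) (x₀ x₁ : V) : V → Prop
  | zero : Perc G x₀ x₁ x₀
  | one : Perc G x₀ x₁ x₁
  | step (x y z : V) : Perc G x₀ x₁ y → Perc G x₀ x₁ z → y ≠ z → G.Adj x y → G.Adj x z →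
      Perc G x₀ x₁ x

lemma two_circles (p q : ℂ) (r s : ℝ) (hpq : p ≠ q) :
    {z : ℂ | ‖z - p‖ = r ∧ ‖z - q‖ = s}.Finite := by
  by_cases h : {z : ℂ | ‖z - p‖ = r ∧ ‖z - q‖ = s}.Subsingleton
  · exact h.finite
  rw [Set.not_subsingleton_iff] at h
  obtain ⟨a, ha, b, hb, hab⟩ := h
  apply (Set.toFinite {a, b}).subset
  intro z hz
  have := EuclideanGeometry.eq_of_dist_eq_of_dist_eq_of_finrank_eq_two (V := ℂ) (P := ℂ)
    (by exact Complex.finrank_real_complex) (c₁ := p) (c₂ := q) (p₁ := a) (p₂ := b) (p := z)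
    (r₁ := r) (r₂ := s) hpq hab (by rw [dist_eq_norm]; exact ha.1)
    (by rw [dist_eq_norm]; exact hb.1) (by rw [dist_eq_norm]; exact hz.1)
    (by rw [dist_eq_norm]; exact ha.2) (by rw [dist_eq_norm]; exact hb.2)
    (by rw [dist_eq_norm]; exact hz.2)
  exact this

/-- the normalised realisations -/
def norm_set (G : SimpleGraph V) (l : Sym2 V → ℝ) (x₀ x₁ : V) : Set (V → ℂ) :=
  {ρ | IsRealisation G l ρ ∧ Function.Injective ρ ∧ ρ x₀ = 0 ∧ ρ x₁ = (l s(x₀, x₁) : ℂ)}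

lemma positions_finite (G : SimpleGraph V) (l : Sym2 V → ℝ) (x₀ x₁ x : V)
    (hx : Perc G x₀ x₁ x) : ((fun ρ : V → ℂ => ρ x) '' norm_set G l x₀ x₁).Finite := by
  induction hx with
  | zero =>
    apply (Set.finite_singleton (0 : ℂ)).subset
    rintro z ⟨ρ, hρ, rfl⟩
    exact hρ.2.2.1
  | one =>
    apply (Set.finite_singleton (l s(x₀, x₁) : ℂ)).subset
    rintro z ⟨ρ, hρ, rfl⟩
    exact hρ.2.2.2
  | step x y z _ _ hyz hxy hxz ihy ihz =>
    have h1 : ((fun ρ : V → ℂ => ρ x) '' norm_set G l x₀ x₁) ⊆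
        ⋃ p ∈ ((fun ρ : V → ℂ => ρ y) '' norm_set G l x₀ x₁),
          ⋃ q ∈ ((fun ρ : V → ℂ => ρ z) '' norm_set G l x₀ x₁) \ {p},
            {w : ℂ | ‖w - p‖ = l s(x, y) ∧ ‖w - q‖ = l s(x, z)} := by
      rintro w ⟨ρ, hρ, rfl⟩
      simp only [Set.mem_iUnion]
      refine ⟨ρ y, ⟨ρ, hρ, rfl⟩, ρ z, ⟨⟨ρ, hρ, rfl⟩, ?_⟩, hρ.1 x y hxy, hρ.1 x z hxz⟩
      intro h
      exact hyz (hρ.2.1 h).symm
    refine Set.Finite.subset (ihy.biUnion fun p _ => (ihz.sdiff).biUnion fun q hq => ?_) h1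
    exact two_circles p q _ _ (fun h => hq.2 h.symm)

theorem not_movable [Finite V] (G : SimpleGraph V) (x₀ x₁ : V) (h01 : G.Adj x₀ x₁)
    (h : ∀ x, Perc G x₀ x₁ x) : ¬ Movable G := by
  rintro ⟨l, hl, hinf⟩
  apply hinf
  have h1 : (norm_set G l x₀ x₁).Finite := by
    apply (Set.Finite.pi' fun x => positions_finite G l x₀ x₁ x (h x)).subset
    intro ρ hρ x
    exact ⟨ρ, hρ, rfl⟩
  apply (h1.image (Quotient.mk (congruence V))).subset
  rintro c ⟨ρ, ⟨hρ, hinj⟩, rfl⟩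
  set w := ρ x₁ - ρ x₀ with hw
  have hw0 : w ≠ 0 := sub_ne_zero.2 fun h2 => h01.ne (hinj h2.symm)
  have hnw : ‖w‖ = l s(x₀, x₁) := by
    rw [hw, ← norm_neg, neg_sub]
    exact hρ _ _ h01
  have hnw0 : (‖w‖ : ℂ) ≠ 0 := by
    rw [Complex.ofReal_ne_zero]
    exact norm_ne_zero_iff.2 hw0
  set a : ℂ := (‖w‖ : ℂ) / w with ha
  have ha1 : ‖a‖ = 1 := by
    rw [ha, norm_div, Complex.norm_real, norm_norm, div_self (norm_ne_zero_iff.2 hw0)]
  have ha0 : a ≠ 0 := by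
    intro h2
    rw [h2] at ha1
    simp at ha1
  refine ⟨fun v => a * ρ v + (-(a * ρ x₀)), ⟨?_, ?_, ?_, ?_⟩, ?_⟩
  · intro u v huv
    have e : a * ρ u + -(a * ρ x₀) - (a * ρ v + -(a * ρ x₀)) = a * (ρ u - ρ v) := by ring
    change ‖a * ρ u + -(a * ρ x₀) - (a * ρ v + -(a * ρ x₀))‖ = _
    rw [e, norm_mul, ha1, one_mul]
    exact hρ u v huv
  · intro u v huv
    have e : a * ρ u + -(a * ρ x₀) = a * ρ v + -(a * ρ x₀) := huv
    exact hinj (mul_left_cancel₀ ha0 (add_right_cancel e))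
  · simp
  · change a * ρ x₁ + -(a * ρ x₀) = _
    have e : a * ρ x₁ + -(a * ρ x₀) = a * w := by rw [hw]; ring
    rw [e, ha, div_mul_cancel₀ _ hw0, hnw]
  · apply Quotient.sound
    exact ⟨a, -(a * ρ x₀), ha1, fun v => rfl⟩

lemma perc_reachable (G : SimpleGraph V) (x₀ x₁ x : V) (h01 : G.Adj x₀ x₁)
    (h : Perc G x₀ x₁ x) : G.Reachable x₀ x := by
  induction h with
  | zero => exact SimpleGraph.Reachable.refl _
  | one => exact h01.reachable
  | step x y z _ _ _ hxy _ ihy _ => exact ihy.trans hxy.symm.reachable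

lemma connected_of_perc (G : SimpleGraph V) (x₀ x₁ : V) (h01 : G.Adj x₀ x₁)
    (h : ∀ x, Perc G x₀ x₁ x) : G.Connected := by
  have : Nonempty V := ⟨x₀⟩
  refine ⟨fun x y => ?_⟩
  exact (perc_reachable G x₀ x₁ x h01 (h x)).symm.trans (perc_reachable G x₀ x₁ y h01 (h y))

end Q140.Mov
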